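import Pool.Agent.Y415.DP.Grow

/-!
# Differences of the rank function of an `r`-differential poset: sharp coefficientwise bound and
exponential growth

Let `P` be an `r`-differential poset with rank function `p` and let `Δ` be the difference operator.

* `(Δ^t p)_n ≥ (Δ^t β)_n` for all `t ≤ r` and all `n`, where `β_n = γ_n² / (n! r^n)`,
  `γ_0 = 1`, `γ_1 = r`, `γ_{n+2} = r γ_{n+1} + r (n+1) γ_n`.
* `(Δ^r p)_n ≥ r (1 - 1/n)` for all `n ≥ 1`; so `(Δ^r p)_n > 0` for all `n ≥ 2` (the answer to Q1),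
  and `(Δ^r p)_n ≥ r` for all `n > r`; `(Δ^t p)_n > 0` for all `t < r` and all `n`.
* `(Δ^t p)_1 = r - t` for every `t`: the `r`-th difference vanishes at `1` and the `(r+1)`-st one is
  negative there, so `r` and `n ≥ 2` are best possible for every `r`-differential poset.
* For every `ε > 0` there is `N` such that for all `r ≥ 1`, all `r`-differential posets, all
  `t ≤ r` and all `n ≥ N r`: `(Δ^t p)_n ≥ exp ((2 - ε) √(r n))`.
-/

set_option autoImplicit false

open Finset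

namespace Pool.Agent.Results.MP_87b2fe_co.DifferenceGrowth

open Pool.Agent.H157R3.DP

/-- `P` with rank function `ρ` is an `r`-differential poset: a locally finite graded poset with a
minimum, finitely many elements of each rank, and the axioms (D1), (D2). -/
structure IsDifferential (r : ℕ) (P : Type*) [PartialOrder P] [OrderBot P] [LocallyFiniteOrder P]
    (ρ : P → ℕ) : Prop where
  rank_bot : ρ ⊥ = 0
  rank_covBy : ∀ x y : P, x ⋖ y → ρ y = ρ x + 1
  finite_rank : ∀ n : ℕ, {x : P | ρ x = n}.Finite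
  d1 : ∀ x y : P, x ≠ y → {z : P | z ⋖ x ∧ z ⋖ y}.ncard = {z : P | x ⋖ z ∧ y ⋖ z}.ncard
  d2 : ∀ x : P, {z : P | x ⋖ z}.ncard = {z : P | z ⋖ x}.ncard + r

/-- the rank function `p_n` -/
noncomputable def rankFn {P : Type*} (ρ : P → ℕ) (n : ℕ) : ℤ := ({x : P | ρ x = n}.ncard : ℤ)

/-- first difference: `(Δ q)_0 = q_0`, `(Δ q)_n = q_n - q_{n-1}` for `n ≥ 1` -/
def diff {R : Type*} [Ring R] (q : ℕ → R) : ℕ → R
  | 0 => q 0
  | (n + 1) => q (n + 1) - q n

/-- `γ_0 = 1`, `γ_1 = r`, `γ_{n+2} = r γ_{n+1} + r (n + 1) γ_n` -/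
def gam (r : ℕ) : ℕ → ℕ
  | 0 => 1
  | 1 => r
  | (n + 2) => r * gam r (n + 1) + r * (n + 1) * gam r n

/-- `β_n = γ_n² / (n! r^n)` -/
noncomputable def beta (r n : ℕ) : ℝ := (gam r n : ℝ) ^ 2 / (n.factorial * (r : ℝ) ^ n)

lemma mk_diff (q : ℕ → ℝ) : PowerSeries.mk (diff q) =
    (1 - PowerSeries.X) * PowerSeries.mk q := by
  ext n
  rcases n with _ | n
  · rw [sub_mul, one_mul, map_sub]
    simp [diff]
  · rw [sub_mul, one_mul, map_sub, PowerSeries.coeff_succ_X_mul]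
    simp [diff]

lemma mk_diff_iter (q : ℕ → ℝ) (t : ℕ) : PowerSeries.mk (diff^[t] q) =
    (1 - PowerSeries.X) ^ t * PowerSeries.mk q := by
  induction t with
  | zero => simp
  | succ t ih =>
    rw [Function.iterate_succ', Function.comp_apply, mk_diff, ih, pow_succ']
    ring

lemma cast_diff (q : ℕ → ℤ) (n : ℕ) : ((diff q n : ℤ) : ℝ) = diff (fun k => ((q k : ℤ) : ℝ)) n := by
  rcases n with _ | n
  · rfl
  · simp [diff]

lemma cast_diff_iter (q : ℕ → ℤ) (t : ℕ) : (fun n => ((diff^[t] q n : ℤ) : ℝ)) =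
    diff^[t] (fun k => ((q k : ℤ) : ℝ)) := by
  induction t with
  | zero => rfl
  | succ t ih =>
    rw [Function.iterate_succ', Function.iterate_succ', Function.comp_apply, Function.comp_apply,
      ← ih]
    funext n
    exact cast_diff _ n

lemma gam_eq (r n : ℕ) : (gam r n : ℝ) = ga (r : ℝ) n := by
  induction n using Nat.strong_induction_on with
  | _ n ih =>
    rcases n with _ | _ | n
    · simp [gam, ga]
    · simp [gam, ga]
    · rw [gam, ga, ← ih (n + 1) (by omega), ← ih n (by omega)]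
      push_cast
      ring

lemma beta_eq {r : ℕ} (hr : 1 ≤ r) : PowerSeries.mk (beta r) = BB (r : ℝ) := by
  have hr0 : (r : ℝ) ≠ 0 := by positivity
  ext n
  rw [PowerSeries.coeff_mk, BB, PowerSeries.coeff_mk, beta, gam_eq, be]
  have h := ga_eq hr0 n
  have hf : ((n.factorial : ℕ) : ℝ) ≠ 0 := by exact_mod_cast (Nat.factorial_pos n).ne'
  have hp : (r : ℝ) ^ n ≠ 0 := pow_ne_zero _ hr0
  rw [div_eq_iff (mul_ne_zero hf hp)]
  calc (ga (r : ℝ) n) ^ 2 = ga (r : ℝ) n * ga (r : ℝ) n := sq _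
    _ = (n.factorial * (r : ℝ) ^ n * al (r : ℝ) n) * ga (r : ℝ) n := by rw [← h]
    _ = _ := by ring

/-- coefficients of `(1 - x)^{-k}` -/
lemma coeff_geo (k n : ℕ) : 0 ≤ PowerSeries.coeff n ((PowerSeries.mk (1 : ℕ → ℝ)) ^ k) := by
  rcases k with _ | k
  · rw [pow_zero, PowerSeries.coeff_one]
    split_ifs <;> norm_num
  · rw [PowerSeries.mk_one_pow_eq_mk_choose_add, PowerSeries.coeff_mk]
    exact Nat.cast_nonneg _

lemma coeff_geo_zero (k : ℕ) : PowerSeries.coeff 0 ((PowerSeries.mk (1 : ℕ → ℝ)) ^ k) = 1 := by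
  rcases k with _ | k
  · rw [pow_zero, PowerSeries.coeff_one, if_pos rfl]
  · rw [PowerSeries.mk_one_pow_eq_mk_choose_add, PowerSeries.coeff_mk]
    simp

lemma coeff_geo_pos (k n : ℕ) : 1 ≤ PowerSeries.coeff n ((PowerSeries.mk (1 : ℕ → ℝ)) ^ (k + 1)) := by
  rw [PowerSeries.mk_one_pow_eq_mk_choose_add, PowerSeries.coeff_mk]
  exact_mod_cast Nat.choose_pos (Nat.le_add_right _ _)

/-- `(1 - x)^t B(x)` for `t ≤ r` -/
lemma BB_eq {r t : ℕ} (ht : t ≤ r) : (1 - PowerSeries.X) ^ t * BB (r : ℝ) =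
    CC r * (PowerSeries.mk (1 : ℕ → ℝ)) ^ (r - t) := by
  obtain ⟨k, rfl⟩ : ∃ k, r = t + k := ⟨r - t, by omega⟩
  rw [Nat.add_sub_cancel_left, CC, pow_add]
  have h : (PowerSeries.mk (1 : ℕ → ℝ)) * (1 - PowerSeries.X) = 1 :=
    PowerSeries.mk_one_mul_one_sub_eq_one ℝ
  have h2 : (1 - PowerSeries.X : PowerSeries ℝ) ^ k * (PowerSeries.mk (1 : ℕ → ℝ)) ^ k = 1 := by
    rw [← mul_pow, mul_comm, h, one_pow]
  linear_combination (-(1 - PowerSeries.X) ^ t * BB ((t + k : ℕ) : ℝ)) * h2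

/-- lower bounds for the coefficients of a product -/
lemma coeff_mul_ge {F G : PowerSeries ℝ} (hF : ∀ n, 0 ≤ PowerSeries.coeff n F)
    (hG : ∀ n, 0 ≤ PowerSeries.coeff n G) (i j : ℕ) :
    PowerSeries.coeff i F * PowerSeries.coeff j G ≤ PowerSeries.coeff (i + j) (F * G) := by
  rw [PowerSeries.coeff_mul]
  exact Finset.single_le_sum (f := fun ij : ℕ × ℕ => PowerSeries.coeff ij.1 F *
    PowerSeries.coeff ij.2 G) (fun ij _ => mul_nonneg (hF _) (hG _)) (a := (i, j)) (by simp)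

lemma coeff_mul_nonneg {F G : PowerSeries ℝ} (hF : ∀ n, 0 ≤ PowerSeries.coeff n F)
    (hG : ∀ n, 0 ≤ PowerSeries.coeff n G) (n : ℕ) : 0 ≤ PowerSeries.coeff n (F * G) := by
  rw [PowerSeries.coeff_mul]
  exact Finset.sum_nonneg fun ij _ => mul_nonneg (hF _) (hG _)

section

variable {r : ℕ} {P : Type*} [PartialOrder P] [OrderBot P] [LocallyFiniteOrder P] {ρ : P → ℕ}

lemma fin_dn (h : IsDifferential r P ρ) (x : P) : {z : P | z ⋖ x}.Finite := by
  apply (h.finite_rank (ρ x - 1)).subset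
  intro z hz
  have := h.rank_covBy z x hz
  show ρ z = ρ x - 1
  omega

lemma fin_up (h : IsDifferential r P ρ) (x : P) : {z : P | x ⋖ z}.Finite := by
  apply (h.finite_rank (ρ x + 1)).subset
  intro z hz
  exact h.rank_covBy x z hz

open Classical in
/-- the combinatorial data -/
noncomputable def dat (h : IsDifferential r P ρ) (hr : 1 ≤ r) : Dat P where
  r := r
  hr := hr
  rk := ρ
  up x := (fin_up h x).toFinset
  dn x := (fin_dn h x).toFinset
  R n := (h.finite_rank n).toFinset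
  mem_R n x := by simp
  mem_up x y := by simp
  rk_dn x y := by
    intro hxy
    exact h.rank_covBy x y (by simpa using hxy)
  card_up x := by
    have h1 := h.d2 x
    rw [Set.ncard_eq_toFinset_card _ (fin_up h x), Set.ncard_eq_toFinset_card _ (fin_dn h x)] at h1
    exact h1
  comm x z hxz := by
    have h1 := h.d1 x z hxz
    have e1 : {y : P | x ⋖ y ∧ z ⋖ y} =
        (((fin_up h x).toFinset.filter (fun y => z ∈ (fin_dn h y).toFinset) : Finset P) : Set P) := by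
      ext y
      simp
    have e2 : {y : P | y ⋖ x ∧ y ⋖ z} =
        (((fin_dn h x).toFinset.filter (fun y => z ∈ (fin_up h y).toFinset) : Finset P) : Set P) := by
      ext y
      simp
    rw [e1, e2, Set.ncard_coe_finset, Set.ncard_coe_finset] at h1
    exact h1.symm

/-- the coefficientwise bound -/
theorem diff_ge (hr : 1 ≤ r) (h : IsDifferential r P ρ) {t : ℕ} (ht : t ≤ r) (n : ℕ) :
    diff^[t] (beta r) n ≤ ((diff^[t] (rankFn ρ) n : ℤ) : ℝ) := by
  classical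
  set T := dat h hr with hT
  have hTr : T.r = r := rfl
  have hcard : ∀ m, ((rankFn ρ m : ℤ) : ℝ) = ((T.R m).card : ℝ) := by
    intro m
    unfold rankFn
    rw [Set.ncard_eq_toFinset_card _ (h.finite_rank m)]
    simp [hT, dat]
  have he0 : 1 ≤ T.e 0 := by
    rw [T.e_zero]
    have : ⊥ ∈ T.R 0 := (T.mem_R 0 ⊥).mpr h.rank_bot
    exact_mod_cast Finset.card_pos.mpr ⟨_, this⟩
  have hmk : PowerSeries.mk (fun n => ((rankFn ρ n : ℤ) : ℝ)) = PowerSeries.mk T.e * BB (r : ℝ) := by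
    ext m
    rw [PowerSeries.coeff_mul, PowerSeries.coeff_mk, hcard, T.card_R,
      Finset.Nat.sum_antidiagonal_eq_sum_range_succ_mk]
    apply Finset.sum_congr rfl
    intro i _
    simp only [PowerSeries.coeff_mk, BB, hTr]
    ring
  have h1 : PowerSeries.coeff n (PowerSeries.mk (diff^[t] (fun k => ((rankFn ρ k : ℤ) : ℝ)))) =
      PowerSeries.coeff n (PowerSeries.mk T.e *
        (CC r * (PowerSeries.mk (1 : ℕ → ℝ)) ^ (r - t))) := by
    rw [mk_diff_iter, hmk, ← BB_eq ht]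
    congr 1
    ring
  have h2 : PowerSeries.coeff n (PowerSeries.mk (diff^[t] (beta r))) =
      PowerSeries.coeff n (CC r * (PowerSeries.mk (1 : ℕ → ℝ)) ^ (r - t)) := by
    rw [mk_diff_iter, beta_eq hr, BB_eq ht]
  rw [PowerSeries.coeff_mk] at h1 h2
  have h3 : ((diff^[t] (rankFn ρ) n : ℤ) : ℝ) =
      diff^[t] (fun k => ((rankFn ρ k : ℤ) : ℝ)) n := congrFun (cast_diff_iter (rankFn ρ) t) n
  rw [h3, h1, h2]
  have hnn : ∀ k, 0 ≤ PowerSeries.coeff k (CC r * (PowerSeries.mk (1 : ℕ → ℝ)) ^ (r - t)) :=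
    coeff_mul_nonneg (coeff_CC_nonneg hr) (coeff_geo _)
  have h4 := coeff_mul_ge (F := PowerSeries.mk T.e) (fun k => by
    rw [PowerSeries.coeff_mk]; exact T.e_nonneg k) hnn 0 n
  rw [PowerSeries.coeff_mk, zero_add] at h4
  refine le_trans ?_ h4
  nlinarith [hnn n]

/-- the lower bound by the coefficients of `(1 - x)^r B(x)` -/
theorem diff_ge_CC (hr : 1 ≤ r) (h : IsDifferential r P ρ) {t : ℕ} (ht : t ≤ r) (n : ℕ) :
    PowerSeries.coeff n (CC r) ≤ ((diff^[t] (rankFn ρ) n : ℤ) : ℝ) := by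
  refine le_trans ?_ (diff_ge hr h ht n)
  have h2 : PowerSeries.coeff n (PowerSeries.mk (diff^[t] (beta r))) =
      PowerSeries.coeff n (CC r * (PowerSeries.mk (1 : ℕ → ℝ)) ^ (r - t)) := by
    rw [mk_diff_iter, beta_eq hr, BB_eq ht]
  rw [PowerSeries.coeff_mk] at h2
  rw [h2]
  have h4 := coeff_mul_ge (coeff_CC_nonneg hr) (coeff_geo (r - t)) n 0
  rw [coeff_geo_zero, mul_one, add_zero] at h4
  exact h4

theorem diff_pos_lt (hr : 1 ≤ r) (h : IsDifferential r P ρ) {t : ℕ} (ht : t < r) (n : ℕ) :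
    0 < diff^[t] (rankFn ρ) n := by
  have h1 := diff_ge hr h ht.le n
  have h2 : PowerSeries.coeff n (PowerSeries.mk (diff^[t] (beta r))) =
      PowerSeries.coeff n (CC r * (PowerSeries.mk (1 : ℕ → ℝ)) ^ (r - t)) := by
    rw [mk_diff_iter, beta_eq hr, BB_eq ht.le]
  rw [PowerSeries.coeff_mk] at h2
  have h4 := coeff_mul_ge (coeff_CC_nonneg hr) (coeff_geo (r - t)) 0 n
  rw [coeff_CC_zero, one_mul, zero_add] at h4
  obtain ⟨k, hk⟩ : ∃ k, r - t = k + 1 := ⟨r - t - 1, by omega⟩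
  have h5 := coeff_geo_pos k n
  rw [← hk] at h5
  have h6 : (0 : ℝ) < ((diff^[t] (rankFn ρ) n : ℤ) : ℝ) := by linarith
  exact_mod_cast h6

/-- a nonminimal element covers something -/
lemma exists_dn (x : P) (hx : x ≠ ⊥) : ∃ z : P, z ⋖ x := by
  obtain ⟨z, -, hz⟩ := exists_le_covBy_of_lt (bot_lt_iff_ne_bot.mpr hx)
  exact ⟨z, hz⟩

lemma rank_zero (h : IsDifferential r P ρ) (x : P) : ρ x = 0 ↔ x = ⊥ := by
  constructor
  · intro h0
    by_contra hx
    obtain ⟨z, hz⟩ := exists_dn x hx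
    have := h.rank_covBy z x hz
    omega
  · rintro rfl
    exact h.rank_bot

lemma rankFn_zero (h : IsDifferential r P ρ) : rankFn ρ 0 = 1 := by
  unfold rankFn
  have : {x : P | ρ x = 0} = {⊥} := by
    ext x
    exact rank_zero h x
  rw [this, Set.ncard_singleton]
  rfl

lemma rankFn_one (h : IsDifferential r P ρ) : rankFn ρ 1 = r := by
  unfold rankFn
  have h1 : {x : P | ρ x = 1} = {z : P | ⊥ ⋖ z} := by
    ext x
    constructor
    · intro hx
      have hx' : ρ x = 1 := hx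
      have hne : x ≠ ⊥ := by
        rintro rfl
        rw [h.rank_bot] at hx'
        omega
      obtain ⟨z, hz⟩ := exists_dn x hne
      have h2 := h.rank_covBy z x hz
      have h3 : z = ⊥ := (rank_zero h z).mp (by omega)
      rw [h3] at hz
      exact hz
    · intro hx
      have := h.rank_covBy ⊥ x hx
      rw [h.rank_bot] at this
      exact this
  have h2 : {z : P | z ⋖ (⊥ : P)} = ∅ := by
    ext z
    simp only [Set.mem_ofPred_eq, Set.mem_empty_iff_false, iff_false]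
    intro hz
    exact not_lt_bot hz.lt
  have h3 := h.d2 ⊥
  rw [h2, Set.ncard_empty, zero_add] at h3
  rw [h1, h3]

lemma diff_zero (q : ℕ → ℤ) (t : ℕ) : diff^[t] q 0 = q 0 := by
  induction t with
  | zero => rfl
  | succ t ih => rw [Function.iterate_succ', Function.comp_apply, diff, ih]

lemma diff_one (q : ℕ → ℤ) (t : ℕ) : diff^[t] q 1 = q 1 - t * q 0 := by
  induction t with
  | zero => simp
  | succ t ih =>
    rw [Function.iterate_succ', Function.comp_apply]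
    show diff^[t] q 1 - diff^[t] q 0 = _
    rw [ih, diff_zero]
    push_cast
    ring

end

/-- **Differences of rank functions of differential posets.**
(1) Let `r ≥ 1`, let `P` be an `r`-differential poset with rank function `p`. Then
`(Δ^r p)_n > 0` for all `n ≥ 2` and `(Δ^t p)_n > 0` for all `t < r`, `n ≥ 0`;
`(Δ^t p)_n ≥ (Δ^t β)_n` for all `t ≤ r` and `n ≥ 0`; `(Δ^r p)_n ≥ r (1 - 1/n)` for all `n ≥ 1`;
and `(Δ^t p)_1 = r - t` for all `t`.
(2) For every `ε > 0` there is `N` such that `(Δ^t p)_n ≥ exp ((2 - ε) √(r n))` for all `r ≥ 1`,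
all `r`-differential posets, all `t ≤ r` and all `n ≥ 1` with `n ≥ N r`. -/
theorem result.{u} :
    (∀ r : ℕ, 1 ≤ r → ∀ (P : Type u) [PartialOrder P] [OrderBot P] [LocallyFiniteOrder P]
      (ρ : P → ℕ), IsDifferential r P ρ →
        (∀ n : ℕ, 2 ≤ n → 0 < diff^[r] (rankFn ρ) n) ∧
        (∀ t < r, ∀ n : ℕ, 0 < diff^[t] (rankFn ρ) n) ∧
        (∀ t ≤ r, ∀ n : ℕ, diff^[t] (beta r) n ≤ ((diff^[t] (rankFn ρ) n : ℤ) : ℝ)) ∧
        (∀ n : ℕ, 1 ≤ n → (r : ℝ) * (1 - 1 / n) ≤ ((diff^[r] (rankFn ρ) n : ℤ) : ℝ)) ∧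
        (∀ t : ℕ, diff^[t] (rankFn ρ) 1 = (r : ℤ) - t)) ∧
    (∀ ε : ℝ, 0 < ε → ∃ N : ℕ, ∀ r : ℕ, 1 ≤ r →
      ∀ (P : Type u) [PartialOrder P] [OrderBot P] [LocallyFiniteOrder P]
      (ρ : P → ℕ), IsDifferential r P ρ → ∀ t ≤ r, ∀ n : ℕ, 1 ≤ n → N * r ≤ n →
        Real.exp ((2 - ε) * Real.sqrt ((r : ℝ) * n)) ≤ ((diff^[t] (rankFn ρ) n : ℤ) : ℝ)) := by
  refine ⟨fun r hr P _ _ _ ρ h => ⟨fun n hn => ?_, fun t ht n => diff_pos_lt hr h ht n,
    fun t ht n => diff_ge hr h ht n, fun n hn => ?_, fun t => ?_⟩, fun ε hε => ?_⟩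
  · have h1 := (Pool.Agent.Y415.DP.CC_ge hr n (by omega)).trans (diff_ge_CC hr h le_rfl n)
    have hn2 : (2 : ℝ) ≤ n := by exact_mod_cast hn
    have h2 : (1 : ℝ) / n < 1 := by rw [div_lt_one (by linarith)]; linarith
    have hr1 : (1 : ℝ) ≤ r := by exact_mod_cast hr
    have h3 : (0 : ℝ) < ((diff^[r] (rankFn ρ) n : ℤ) : ℝ) := by
      have : 0 < (r : ℝ) * (1 - 1 / n) := mul_pos (by linarith) (by linarith)
      linarith
    exact_mod_cast h3
  · exact (Pool.Agent.Y415.DP.CC_ge hr n hn).trans (diff_ge_CC hr h le_rfl n)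
  · rw [diff_one, rankFn_zero h, rankFn_one h, mul_one]
  · obtain ⟨N, hN⟩ := Pool.Agent.Y415.DP.CC_growth ε hε
    exact ⟨N, fun r hr P _ _ _ ρ h t ht n hn1 hn =>
      (hN r hr n hn hn1).trans (diff_ge_CC hr h ht n)⟩

end Pool.Agent.Results.MP_87b2fe_co.DifferenceGrowth
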